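import Pool.Agent.Helper34.QH.Main

/-!
Joint growth of the integer quantitative Helly numbers: there is an absolute constant `C` with
`c(ℤⁿ, k) ≤ C 2ⁿ k^((n-1)/(n+1))` for all `n, k ≥ 1`.
-/

namespace Pool.Agent.Results.MP_735047_co.JointGrowth

/-- The quantitative Helly property of a set `S ⊆ ℝⁿ` for `k` points with parameter `t`:
whenever finitely many (at least one) convex sets have exactly `k` points of `S` in their
intersection, at most `t` of them already have exactly `k` points of `S` in their intersection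
(the intersection of the empty family is `ℝⁿ`). The quantitative Helly number `c(S, k)` is the
least `t` with this property. -/
def QuantHelly {n : ℕ} (S : Set (Fin n → ℝ)) (k t : ℕ) : Prop :=
  ∀ m : ℕ, 1 ≤ m → ∀ C : Fin m → Set (Fin n → ℝ), (∀ i, Convex ℝ (C i)) →
    ((⋂ i, C i) ∩ S).encard = k →
    ∃ I : Finset (Fin m), I.card ≤ t ∧ ((⋂ i ∈ I, C i) ∩ S).encard = k

/-- The integer lattice `ℤⁿ` as a subset of `ℝⁿ`. -/
def intLattice (n : ℕ) : Set (Fin n → ℝ) :=
  Set.range (fun (z : Fin n → ℤ) (i : Fin n) => (z i : ℝ))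

lemma toR_inj (n : ℕ) : Function.Injective (Helper34.QH.toR (n := n)) := by
  intro x y h
  funext i
  have := congrFun h i
  simpa [Helper34.QH.toR] using this

lemma encard_eq {n : ℕ} (D : Set (Fin n → ℝ)) :
    (D ∩ intLattice n).encard = {z : Fin n → ℤ | Helper34.QH.toR z ∈ D}.encard := by
  have : D ∩ intLattice n = Helper34.QH.toR '' {z : Fin n → ℤ | Helper34.QH.toR z ∈ D} := by
    ext x
    constructor
    · rintro ⟨hx, z, rfl⟩
      exact ⟨z, hx, rfl⟩
    · rintro ⟨z, hz, rfl⟩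
      exact ⟨hz, z, rfl⟩
  rw [this, (toR_inj n).encard_image]

lemma quantHelly_iff (n k t : ℕ) :
    QuantHelly (intLattice n) k t ↔ Helper34.QH.HellyLe n k t := by
  unfold QuantHelly Helper34.QH.HellyLe
  simp only [encard_eq, Set.mem_iInter]

/-- There is an absolute constant `C` such that for all `n, k ≥ 1` the quantitative Helly number
`c(ℤⁿ, k)` exists and is at most `C 2ⁿ k^((n-1)/(n+1))`. -/
theorem result : ∃ C : ℝ, 0 < C ∧ ∀ n k : ℕ, 1 ≤ n → 1 ≤ k →
    ∃ c : ℕ, IsLeast {t : ℕ | QuantHelly (intLattice n) k t} c ∧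
      (c : ℝ) ≤ C * 2 ^ n * (k : ℝ) ^ (((n : ℝ) - 1) / ((n : ℝ) + 1)) := by
  obtain ⟨C, hC, h⟩ := Helper34.QH.final
  refine ⟨C, hC, fun n k hn hk => ?_⟩
  obtain ⟨t, ht, hle⟩ := h n k hn hk
  refine ⟨t, ?_, hle⟩
  simpa only [quantHelly_iff] using ht

end Pool.Agent.Results.MP_735047_co.JointGrowth
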